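import Pool.Agent.H37.Sol3

set_option autoImplicit false

open Filter Topology Pool.Agent.H37

/-- Every universal lower semicomputable semimeasure fails to converge to `1/2` on some
Martin-Löf random sequence. -/
theorem Pool.Agent.Results.MP_b38472_lc.No.result (M : List Bool → ℝ) (hM : Sol.Univ M) :
    ∃ ω : ℕ → Bool, Defc.MLRandom ω ∧
      ¬ Tendsto (fun n => M (Defc.cut ω (n + 1)) / M (Defc.cut ω n)) atTop (𝓝 (1 / 2)) :=
  Sol.main hM
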